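import Pool.Agent.H3RD.W830.RD.Stm

/-! RD-FIN (MP_54f573_pr): assembly of the asymptotic statement. -/

set_option autoImplicit false

namespace Pool.Agent.W465.RD.Fin

open Pool.Agent.W830.RD
open Finset Filter Topology
open scoped Classical

/-- the main numerical inequality -/
lemma num_b (e K d T g N0 N1 : ℝ) (he : 0 < e) (he1 : e ≤ 1) (hK0 : 0 ≤ K)
    (hd : 16 ≤ d) (hed : 16 + 4 * K ≤ e * d) (t1 : T ≤ (1 + e / 8) * d ^ 2 + 1)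
    (g2 : g ≤ e / 8 * d + 1) (a1 : d ≤ N1) (b2 : (1 + e / 2) * d ≤ N0 + 1) :
    2 * T + 2 * (K * g) ≤ N1 ^ 2 + (N0 + 1) * N0 := by
  have hd0 : 0 < d := by linarith
  have hed1 : e * d ≤ d := by
    have := mul_le_mul_of_nonneg_right he1 hd0.le
    linarith
  have hx1 : d ≤ (1 + e / 2) * d := by
    have : 0 ≤ e / 2 * d := by positivity
    linarith
  have hx2 : (1 + e / 2) * d ≤ 3 / 2 * d := by linarith
  have h2 : ((1 + e / 2) * d) * ((1 + e / 2) * d - 1) ≤ (N0 + 1) * N0 :=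
    mul_le_mul b2 (by linarith) (by linarith) (by linarith)
  have h3 : d ^ 2 ≤ N1 ^ 2 := pow_le_pow_left₀ hd0.le a1 2
  have h6 : (1 + e) * d ^ 2 ≤ ((1 + e / 2) * d) ^ 2 := by
    have h0 : 0 ≤ (e / 2 * d) ^ 2 := sq_nonneg _
    have h1 : ((1 + e / 2) * d) ^ 2 = (1 + e) * d ^ 2 + (e / 2 * d) ^ 2 := by ring
    linarith
  have h7 : K * g ≤ K * (e / 8 * d + 1) := mul_le_mul_of_nonneg_left g2 hK0
  have h8 : (12 + 3 * K) * d ≤ 3 / 4 * (e * d ^ 2) := by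
    have h0 := mul_le_mul_of_nonneg_right hed hd0.le
    have h1 : e * d * d = e * d ^ 2 := by ring
    linarith
  have h9 : K * (e * d) ≤ K * d := mul_le_mul_of_nonneg_left hed1 hK0
  have h10 : K * 16 ≤ K * d := mul_le_mul_of_nonneg_left hd hK0
  linarith

lemma num_e (e K d T g : ℝ) (he : 0 < e) (he1 : e ≤ 1) (hK0 : 0 ≤ K) (hK : 8 / (e / 8) ^ 2 ≤ K)
    (hd : 16 ≤ d) (hη2 : 2 ≤ e / 8 * d) (t1 : T ≤ (1 + e / 8) * d ^ 2 + 1)
    (g3 : e / 8 * d ≤ g) : 2 * T ≤ K * (g * (g - 1)) := by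
  have hd0 : 0 < d := by linarith
  have h3 : 8 * d ^ 2 ≤ K * (e / 8 * d) ^ 2 := by
    have h4 : 8 ≤ K * (e / 8) ^ 2 := by
      rw [div_le_iff₀ (by positivity)] at hK
      exact hK
    have h5 := mul_le_mul_of_nonneg_right h4 (sq_nonneg d)
    have h6 : K * (e / 8) ^ 2 * d ^ 2 = K * (e / 8 * d) ^ 2 := by ring
    linarith
  have h6 : K * ((e / 8 * d) ^ 2 / 2) ≤ K * (e / 8 * d * (e / 8 * d - 1)) := by
    apply mul_le_mul_of_nonneg_left _ hK0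
    have h0 : 0 ≤ (e / 8 * d) * (e / 8 * d - 2) := mul_nonneg (by linarith) (by linarith)
    linarith
  have h7 : K * (e / 8 * d * (e / 8 * d - 1)) ≤ K * (g * (g - 1)) := by
    apply mul_le_mul_of_nonneg_left _ hK0
    apply mul_le_mul g3 (by linarith) (by linarith) (by linarith)
  have h8 : (1 + e / 8) * d ^ 2 ≤ 9 / 8 * d ^ 2 :=
    mul_le_mul_of_nonneg_right (by linarith) (sq_nonneg d)
  have h9 : 16 * d ≤ d ^ 2 := by
    have := mul_le_mul_of_nonneg_right hd hd0.le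
    linarith
  linarith

/-- the numerical inequalities -/
lemma num (e : ℝ) (he : 0 < e) (he1 : e ≤ 1) (K : ℕ) (hK : 8 / (e / 8) ^ 2 ≤ K) (d : ℝ)
    (hd : 16 ≤ d) (hed : 16 + 4 * (K : ℝ) ≤ e * d) :
    1 ≤ ⌈e / 8 * d⌉₊ ∧
    2 * ⌈(1 + e / 8) * d ^ 2⌉₊ + 2 * (K * ⌈e / 8 * d⌉₊) ≤
      ⌈d⌉₊ ^ 2 + (⌊(1 + e / 2) * d⌋₊ + 1) * ⌊(1 + e / 2) * d⌋₊ ∧
    ⌊(1 + e / 2) * d⌋₊ + 2 ≤ ⌊(1 + e) * d⌋₊ ∧
    ⌈d⌉₊ + 2 * ⌈e / 8 * d⌉₊ + 2 ≤ ⌊(1 + e) * d⌋₊ ∧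
    2 * ⌈(1 + e / 8) * d ^ 2⌉₊ ≤ K * (⌈e / 8 * d⌉₊ * (⌈e / 8 * d⌉₊ - 1)) ∧
    1 ≤ ⌈(1 + e / 8) * d ^ 2⌉₊ ∧ ⌈e / 8 * d⌉₊ ≤ ⌈d⌉₊ ∧
    ⌊(1 + e / 2) * d⌋₊ ≤ 2 * ⌈d⌉₊ := by
  have hd0 : 0 < d := by linarith
  have hK0 : (0 : ℝ) ≤ K := K.cast_nonneg
  have hη : 0 < e / 8 * d := by positivity
  have hη2 : 2 ≤ e / 8 * d := by linarith
  have hed1 : e * d ≤ d := by
    have := mul_le_mul_of_nonneg_right he1 hd0.le
    linarith
  have g1 : 1 ≤ ⌈e / 8 * d⌉₊ := Nat.ceil_pos.2 hη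
  have g2 : (⌈e / 8 * d⌉₊ : ℝ) < e / 8 * d + 1 := Nat.ceil_lt_add_one hη.le
  have g3 : e / 8 * d ≤ ⌈e / 8 * d⌉₊ := Nat.le_ceil _
  have a1 : d ≤ ⌈d⌉₊ := Nat.le_ceil _
  have a2 : (⌈d⌉₊ : ℝ) < d + 1 := Nat.ceil_lt_add_one hd0.le
  have b1 : (⌊(1 + e / 2) * d⌋₊ : ℝ) ≤ (1 + e / 2) * d := Nat.floor_le (by positivity)
  have b2 : (1 + e / 2) * d < ⌊(1 + e / 2) * d⌋₊ + 1 := Nat.lt_floor_add_one _
  have t1 : (⌈(1 + e / 8) * d ^ 2⌉₊ : ℝ) < (1 + e / 8) * d ^ 2 + 1 :=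
    Nat.ceil_lt_add_one (by positivity)
  have t2 : 1 ≤ ⌈(1 + e / 8) * d ^ 2⌉₊ := Nat.ceil_pos.2 (by positivity)
  refine ⟨g1, ?_, ?_, ?_, ?_, t2, ?_, ?_⟩
  · have h1 := num_b e K d _ _ _ _ he he1 hK0 hd hed t1.le g2.le a1 b2.le
    exact_mod_cast h1
  · apply Nat.le_floor
    push_cast
    linarith
  · apply Nat.le_floor
    push_cast
    linarith
  · have h1 := num_e e K d _ _ he he1 hK0 hK hd hη2 t1.le g3
    have h2 : ((⌈e / 8 * d⌉₊ - 1 : ℕ) : ℝ) = (⌈e / 8 * d⌉₊ : ℝ) - 1 := by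
      rw [Nat.cast_sub g1, Nat.cast_one]
    rw [← h2] at h1
    exact_mod_cast h1
  · apply Nat.ceil_mono
    linarith
  · have h1 : (⌊(1 + e / 2) * d⌋₊ : ℝ) ≤ 2 * (⌈d⌉₊ : ℝ) := by linarith
    exact_mod_cast h1

lemma comb_lt (a r1 r2 : ℕ) (π1 : Finset (Fin r1 × Fin r1)) (π2 : Finset (Fin r2 × Fin r2)) :
    ∀ e ∈ comb a r1 r2 π1 π2, e.1 < e.2 := by
  intro e he
  unfold comb at he
  rw [Finset.mem_filter] at he
  exact he.2.1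

lemma pat1_lt (K g : ℕ) : ∀ e ∈ pat1 K g, e.1 < e.2 := by
  intro e he
  unfold pat1 at he
  rw [Finset.mem_filter] at he
  exact he.2.1

lemma occ2_le (hU : S_UB) (hB : S_PBAS) (p : ℝ) (hp : 0 < p) (hp1 : p < 1) (n m g N0 T2 K t : ℕ)
    (Pi : (r : ℕ) → Finset (Finset (Fin r × Fin r))) (hPi : PatProp K t Pi) (hT : 1 ≤ T2)
    (hm : 1 ≤ m) :
    Pr p n (fun E => Occ2 K Pi m g N0 T2 E) ≤ ((K * g + 1 : ℕ) : ℝ) ^ 2 *
      (n * (m : ℝ) ^ (N0 + 1 + 2 * (K * g)) * ((K * g + 2 : ℕ) : ℝ) ^ (2 * (t * (K * g))) *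
        (1 - p) ^ T2) := by
  obtain ⟨_, _, hmono, _, _, hunion⟩ := hB p n hp hp1
  let Pa : (i : ℕ × ℕ) → Finset (Finset (Fin (N0 + 1 + i.1 + i.2) × Fin (N0 + 1 + i.1 + i.2))) :=
    fun i => (((Pi i.1) ×ˢ (Pi i.2)).image (fun q => comb (N0 + 1) i.1 i.2 q.1 q.2)).filter
      (fun π => T2 ≤ π.card)
  let s : Finset (ℕ × ℕ) := Finset.range (K * g + 1) ×ˢ Finset.range (K * g + 1)
  let A : ℕ × ℕ → Finset (Fin n × Fin n) → Prop := fun i E =>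
    ∃ π ∈ Pa i, Occ m (N0 + 1 + i.1 + i.2) π E
  have h1 : Pr p n (fun E => Occ2 K Pi m g N0 T2 E) ≤ Pr p n (fun E => ∃ i ∈ s, A i E) := by
    apply hmono
    rintro E _ ⟨r1, hr1, r2, hr2, π1, hπ1, π2, hπ2, hcard, hocc⟩
    refine ⟨(r1, r2), ?_, comb (N0 + 1) r1 r2 π1 π2, ?_, hocc⟩
    · rw [Finset.mem_product, Finset.mem_range, Finset.mem_range]
      exact ⟨Nat.lt_succ_of_le hr1, Nat.lt_succ_of_le hr2⟩
    · rw [Finset.mem_filter, Finset.mem_image]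
      refine ⟨⟨(π1, π2), ?_, rfl⟩, hcard⟩
      rw [Finset.mem_product]
      exact ⟨hπ1, hπ2⟩
  refine (h1.trans (hunion _ s A)).trans ?_
  have h2 : ∀ i ∈ s, Pr p n (A i) ≤ n * (m : ℝ) ^ (N0 + 1 + 2 * (K * g)) *
      ((K * g + 2 : ℕ) : ℝ) ^ (2 * (t * (K * g))) * (1 - p) ^ T2 := by
    intro i hi
    rw [Finset.mem_product, Finset.mem_range, Finset.mem_range] at hi
    have h3 := hU p n m (N0 + 1 + i.1 + i.2) T2 (Pa i) hp hp1 hT (by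
      intro π hπ
      rw [Finset.mem_filter, Finset.mem_image] at hπ
      obtain ⟨⟨q, _, rfl⟩, hc⟩ := hπ
      exact ⟨hc, comb_lt _ _ _ _ _⟩)
    refine h3.trans ?_
    have hpc : (Pa i).card ≤ (K * g + 2) ^ (2 * (t * (K * g))) := by
      have h4 : (Pa i).card ≤ (Pi i.1).card * (Pi i.2).card := by
        refine (Finset.card_filter_le _ _).trans (Finset.card_image_le.trans ?_)
        rw [Finset.card_product]
      have h5 : ∀ r, r < K * g + 1 → (Pi r).card ≤ (K * g + 2) ^ (t * (K * g)) := by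
        intro r hr
        refine (hPi r).1.trans ?_
        refine (Nat.pow_le_pow_left (by omega : r + 2 ≤ K * g + 2) _).trans ?_
        exact Nat.pow_le_pow_right (by omega) (Nat.mul_le_mul_left _ (by omega))
      refine h4.trans ((Nat.mul_le_mul (h5 _ hi.1) (h5 _ hi.2)).trans ?_)
      rw [← pow_add]
      exact le_of_eq (by ring_nf)
    have hm1 : (1 : ℝ) ≤ m := by exact_mod_cast hm
    have h6 : (m : ℝ) ^ (N0 + 1 + i.1 + i.2) ≤ (m : ℝ) ^ (N0 + 1 + 2 * (K * g)) :=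
      pow_le_pow_right₀ hm1 (by omega)
    have h7 : ((Pa i).card : ℝ) ≤ ((K * g + 2 : ℕ) : ℝ) ^ (2 * (t * (K * g))) := by
      exact_mod_cast hpc
    have h8 : (0 : ℝ) ≤ (1 - p) ^ T2 := pow_nonneg (by linarith) _
    apply mul_le_mul_of_nonneg_right _ h8
    apply mul_le_mul _ h7 (by positivity) (by positivity)
    exact mul_le_mul_of_nonneg_left h6 (by positivity)
  refine (Finset.sum_le_card_nsmul s _ _ h2).trans ?_
  rw [nsmul_eq_mul]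
  have h3 : (s.card : ℝ) = ((K * g + 1 : ℕ) : ℝ) ^ 2 := by
    rw [Finset.card_product, Finset.card_range]
    push_cast
    ring
  rw [h3]

lemma occ1_le (hU : S_UB) (p : ℝ) (hp : 0 < p) (hp1 : p < 1) (n m K g T2 : ℕ) (hT : 1 ≤ T2)
    (hcard : T2 ≤ (pat1 K g).card) :
    Pr p n (fun E => Occ m (K * g) (pat1 K g) E) ≤ n * (m : ℝ) ^ (K * g) * (1 - p) ^ T2 := by
  have h := hU p n m (K * g) T2 {pat1 K g} hp hp1 hT (by
    intro π hπ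
    rw [Finset.mem_singleton] at hπ
    subst hπ
    exact ⟨hcard, pat1_lt K g⟩)
  simp only [Finset.mem_singleton, exists_eq_left, Finset.card_singleton, Nat.cast_one,
    mul_one] at h
  exact h

lemma nat_bound (M g N0 K t c0 : ℕ) (hg : g ≤ c0) (hN0 : N0 ≤ 2 * c0) :
    M ^ (K * g) + (K * g + 1) ^ 2 *
      (M ^ (N0 + 1 + 2 * (K * g)) * (K * g + 2) ^ (2 * (t * (K * g)))) ≤
    (M + (5 + 2 * K + 2 * (t * K)) * (c0 + 1)) ^ ((5 + 2 * K + 2 * (t * K)) * (c0 + 1)) := by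
  set B := M + (5 + 2 * K + 2 * (t * K)) * (c0 + 1) with hB
  have hKg : K * g ≤ K * c0 := Nat.mul_le_mul_left K hg
  have htKg : t * (K * g) ≤ t * (K * c0) := Nat.mul_le_mul_left t hKg
  have hexp : (5 + 2 * K + 2 * (t * K)) * (c0 + 1)
      = 5 * c0 + 5 + 2 * (K * c0) + 2 * K + 2 * (t * (K * c0)) + 2 * (t * K) := by ring
  have hB1 : K * g + 2 ≤ B := by omega
  have hMB : M ≤ B := Nat.le_add_right _ _
  have hB2 : 2 ≤ B := by omega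
  have h1 : M ^ (K * g) ≤ B ^ (2 + ((N0 + 1 + 2 * (K * g)) + 2 * (t * (K * g)))) :=
    (Nat.pow_le_pow_left hMB _).trans (Nat.pow_le_pow_right (by omega) (by omega))
  have h2 : (K * g + 1) ^ 2 * (M ^ (N0 + 1 + 2 * (K * g)) * (K * g + 2) ^ (2 * (t * (K * g))))
      ≤ B ^ (2 + ((N0 + 1 + 2 * (K * g)) + 2 * (t * (K * g)))) := by
    rw [pow_add B, pow_add B]
    exact Nat.mul_le_mul (Nat.pow_le_pow_left (by omega) _)
      (Nat.mul_le_mul (Nat.pow_le_pow_left hMB _) (Nat.pow_le_pow_left hB1 _))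
  have h3 : B ^ (2 + ((N0 + 1 + 2 * (K * g)) + 2 * (t * (K * g))) + 1) ≤
      B ^ ((5 + 2 * K + 2 * (t * K)) * (c0 + 1)) := by
    apply Nat.pow_le_pow_right (by omega)
    omega
  refine le_trans ?_ h3
  rw [pow_succ B]
  refine le_trans ?_ (Nat.mul_le_mul_left _ hB2)
  omega

theorem main (hP : S_PAT) (hD : S_DET) (hU : S_UB) (hT : S_POST) (hA : S_ASYM) (hC : S_PCARD)
    (hB : S_PBAS) : S_GOAL := by
  intro p hp hp1 ε hε
  obtain ⟨e, he, he1, heε⟩ : ∃ e : ℝ, 0 < e ∧ e ≤ 1 ∧ e ≤ ε :=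
    ⟨min ε 1, lt_min hε one_pos, min_le_right _ _, min_le_left _ _⟩
  obtain ⟨c, hc, hgap⟩ := hT p hp hp1
  obtain ⟨K, hK⟩ : ∃ K : ℕ, 8 / (e / 8) ^ 2 ≤ (K : ℝ) := ⟨_, Nat.le_ceil _⟩
  obtain ⟨t, Pi, hPi⟩ := hP K
  have hlam : 0 < Real.log (1 / (1 - p)) := by
    apply Real.log_pos
    rw [lt_div_iff₀ (by linarith)]
    linarith
  have has := hA p (e / 8) (5 + 2 * K + 2 * (t * K)) c hp hp1 (by positivity)
  have hd : Tendsto (fun n : ℕ => Real.sqrt (Real.log n / Real.log (1 / (1 - p)))) atTop atTop :=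
    Real.tendsto_sqrt_atTop.comp
      ((Real.tendsto_log_atTop.comp tendsto_natCast_atTop_atTop).atTop_div_const hlam)
  have hev := hd.eventually_ge_atTop (max 16 ((16 + 4 * (K : ℝ)) / e))
  have hlow := hgap.sub has
  rw [sub_zero] at hlow
  refine tendsto_of_tendsto_of_tendsto_of_le_of_le' hlow tendsto_const_nhds ?_ ?_
  · filter_upwards [hev] with n hn
    obtain ⟨_, hpos, hmono, hor, _, _⟩ := hB p n hp hp1
    set d := Real.sqrt (Real.log n / Real.log (1 / (1 - p))) with hd_def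
    have hd2 : d ^ 2 = Real.log n / Real.log (1 / (1 - p)) :=
      Real.sq_sqrt (div_nonneg (Real.log_natCast_nonneg n) hlam.le)
    have hd16 : 16 ≤ d := (le_max_left _ _).trans hn
    have hed : 16 + 4 * (K : ℝ) ≤ e * d := by
      have h1 := (le_max_right _ _).trans hn
      rw [div_le_iff₀ he] at h1
      linarith
    obtain ⟨n1, n2, n3, n4, n5, n6, n7, n8⟩ := num e he he1 K hK d hd16 hed
    rw [hd2] at n2 n5 n6
    set g := ⌈e / 8 * d⌉₊ with hg_def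
    set N0 := ⌊(1 + e / 2) * d⌋₊ with hN0_def
    set T2 := ⌈(1 + e / 8) * (Real.log n / Real.log (1 / (1 - p)))⌉₊ with hT2_def
    set m := c * (⌈Real.log n⌉₊ + 1) ^ 2 with hm_def
    have hm : 1 ≤ m := Nat.mul_pos hc (by positivity)
    have hcard : T2 ≤ (pat1 K g).card := by
      have := hC.1 K g
      omega
    have hk : ((⌊(1 + e) * d⌋₊ : ℕ) : ℝ) ≤ (1 + ε) * d := by
      refine (Nat.floor_le (by positivity)).trans ?_
      exact mul_le_mul_of_nonneg_right (by linarith) (by linarith)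
    have h1 : Pr p n (fun E => Gap m E) ≤ Pr p n (fun E => (∃ k : ℕ, (k : ℝ) ≤ (1 + ε) * d ∧
        Rlz (gle E) k) ∨ (Occ (2 * m) (K * g) (pat1 K g) E ∨ Occ2 K Pi (2 * m) g N0 T2 E)) := by
      apply hmono
      intro E hE hG
      by_cases h1 : Occ (2 * m) (K * g) (pat1 K g) E
      · exact Or.inr (Or.inl h1)
      by_cases h2 : Occ2 K Pi (2 * m) g N0 T2 E
      · exact Or.inr (Or.inr h2)
      exact Or.inl ⟨_, hk, hD K t Pi hPi n m g N0 ⌈d⌉₊ T2 _ E hE hm hG n1 h1 h2 n2 n3 n4⟩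
    have h2 := hor (fun E => ∃ k : ℕ, (k : ℝ) ≤ (1 + ε) * d ∧ Rlz (gle E) k)
      (fun E => Occ (2 * m) (K * g) (pat1 K g) E ∨ Occ2 K Pi (2 * m) g N0 T2 E)
    have h3 := hor (fun E => Occ (2 * m) (K * g) (pat1 K g) E)
      (fun E => Occ2 K Pi (2 * m) g N0 T2 E)
    have h4 := occ1_le hU p hp hp1 n (2 * m) K g T2 n6 hcard
    have h5 := occ2_le hU hB p hp hp1 n (2 * m) g N0 T2 K t Pi hPi n6 (by omega)
    have h6 : (((2 * m : ℕ) : ℝ) ^ (K * g) + ((K * g + 1 : ℕ) : ℝ) ^ 2 *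
        (((2 * m : ℕ) : ℝ) ^ (N0 + 1 + 2 * (K * g)) *
          ((K * g + 2 : ℕ) : ℝ) ^ (2 * (t * (K * g))))) ≤
        (((2 * m : ℕ) : ℝ) + ((5 + 2 * K + 2 * (t * K) : ℕ) : ℝ) * ((⌈d⌉₊ : ℝ) + 1)) ^
          ((5 + 2 * K + 2 * (t * K)) * (⌈d⌉₊ + 1)) := by
      have h7 := nat_bound (2 * m) g N0 K t ⌈d⌉₊ n7 n8
      exact_mod_cast h7
    have hq : (0 : ℝ) ≤ (1 - p) ^ T2 := pow_nonneg (by linarith) _
    have h7 : (n : ℝ) * (((2 * m : ℕ) : ℝ) ^ (K * g) + ((K * g + 1 : ℕ) : ℝ) ^ 2 *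
        (((2 * m : ℕ) : ℝ) ^ (N0 + 1 + 2 * (K * g)) *
          ((K * g + 2 : ℕ) : ℝ) ^ (2 * (t * (K * g))))) * (1 - p) ^ T2 ≤
        n * (((2 * m : ℕ) : ℝ) + ((5 + 2 * K + 2 * (t * K) : ℕ) : ℝ) * ((⌈d⌉₊ : ℝ) + 1)) ^
          ((5 + 2 * K + 2 * (t * K)) * (⌈d⌉₊ + 1)) * (1 - p) ^ T2 :=
      mul_le_mul_of_nonneg_right (mul_le_mul_of_nonneg_left h6 n.cast_nonneg) hq
    have h8 : (n : ℝ) * ((2 * m : ℕ) : ℝ) ^ (K * g) * (1 - p) ^ T2 +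
        ((K * g + 1 : ℕ) : ℝ) ^ 2 * (n * ((2 * m : ℕ) : ℝ) ^ (N0 + 1 + 2 * (K * g)) *
          ((K * g + 2 : ℕ) : ℝ) ^ (2 * (t * (K * g))) * (1 - p) ^ T2) =
        (n : ℝ) * (((2 * m : ℕ) : ℝ) ^ (K * g) + ((K * g + 1 : ℕ) : ℝ) ^ 2 *
        (((2 * m : ℕ) : ℝ) ^ (N0 + 1 + 2 * (K * g)) *
          ((K * g + 2 : ℕ) : ℝ) ^ (2 * (t * (K * g))))) * (1 - p) ^ T2 := by ring
    linarith
  · refine Eventually.of_forall fun n => ?_
    obtain ⟨htop, _, hmono, _, _, _⟩ := hB p n hp hp1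
    rw [← htop]
    exact hmono _ _ fun _ _ _ => trivial

end Pool.Agent.W465.RD.Fin
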